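import Pool.Agent.H376R3.PD.Final2
import Pool.Agent.H833R3.PD34
import Pool.Agent.H833R3.PD56
import Pool.Agent.H973R3.PD.PD2

/-!
# Strongly q-pseudocompact group topologies without convergent sequences

Every abelian group with a pseudocompact (Hausdorff) group topology (in particular, every abelian
group with a strongly p-pseudocompact group topology for some free ultrafilter p) has, for every
free ultrafilter q, a Hausdorff group topology which is strongly q-pseudocompact and has no
nontrivial convergent sequences.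

The proof uses pieces formalised by helper833, helper973, helper990, helper345, helper206 and
helper526.
-/

set_option autoImplicit false

universe u

namespace Pool.Agent.Results.MP_dbf3d5_gt.NoConvergentSequences

open Topology Filter Pool.Agent.H376R3.PC Pool.Agent.H376R3.PD

/-- The ultrafilter `p` is free: it contains no finite set. -/
def Free (p : Ultrafilter ℕ) : Prop := ∀ s : Set ℕ, s.Finite → s ∉ p

/-- `x` is a `p`-limit of the sequence `u`. -/
def IsPLim {X : Type*} [TopologicalSpace X] (p : Ultrafilter ℕ) (u : ℕ → X) (x : X) : Prop :=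
  ∀ W ∈ 𝓝 x, {n | u n ∈ W} ∈ p

/-- `X` is strongly `p`-pseudocompact. -/
def StronglyPseudocompact (X : Type*) [TopologicalSpace X] (p : Ultrafilter ℕ) : Prop :=
  ∀ U : ℕ → Set X, (∀ n, IsOpen (U n) ∧ (U n).Nonempty) →
    ∃ u : ℕ → X, (∀ n, u n ∈ U n) ∧ ∃ x, IsPLim p u x

/-- There is a sequence of pairwise distinct points that converges. -/
def HasConvergentSequence (X : Type*) [TopologicalSpace X] : Prop :=
  ∃ (u : ℕ → X) (x : X), Function.Injective u ∧ Tendsto u atTop (𝓝 x)

/-- Every continuous real-valued function is bounded. -/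
def Pseudocompact (X : Type*) [TopologicalSpace X] : Prop :=
  ∀ f : X → ℝ, Continuous f → ∃ C : ℝ, ∀ x, |f x| ≤ C

theorem StronglyPseudocompact.pseudocompact {X : Type*} [TopologicalSpace X] {p : Ultrafilter ℕ}
    (hp : Free p) (h : StronglyPseudocompact X p) : Pseudocompact X := by
  intro f hf
  by_contra hcon
  push Not at hcon
  obtain ⟨u, hu, x, hx⟩ := h (fun n => {z | (n : ℝ) < |f z|}) (fun n =>
    ⟨isOpen_lt continuous_const hf.abs, hcon n⟩)
  have h1 := hx {z | |f z| < |f x| + 1} ((isOpen_lt hf.abs continuous_const).mem_nhds (by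
    show |f x| < |f x| + 1
    linarith))
  refine hp _ ?_ h1
  obtain ⟨N, hN⟩ := exists_nat_gt (|f x| + 1)
  refine (Set.finite_Iio N).subset ?_
  intro n hn
  have h2 : (n : ℝ) < |f (u n)| := hu n
  have h3 : |f (u n)| < |f x| + 1 := hn
  have h4 : (n : ℝ) < N := (h2.trans h3).trans hN
  exact_mod_cast h4

/-- Every abelian group with a pseudocompact Hausdorff group topology has, for every free
ultrafilter `q`, a Hausdorff group topology that is strongly `q`-pseudocompact and has no
nontrivial convergent sequences; in particular this holds if the group has a strongly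
`p`-pseudocompact Hausdorff group topology for some free ultrafilter `p`. -/
theorem result (G : Type u) [AddCommGroup G]
    (h : ∃ τ : TopologicalSpace G, @IsTopologicalAddGroup G τ _ ∧ @T2Space G τ ∧
      (@Pseudocompact G τ ∨ ∃ p, Free p ∧ @StronglyPseudocompact G τ p)) :
    ∀ q : Ultrafilter ℕ, Free q →
      ∃ σ : TopologicalSpace G, @IsTopologicalAddGroup G σ _ ∧ @T2Space G σ ∧
        @StronglyPseudocompact G σ q ∧ ¬ @HasConvergentSequence G σ := by
  intro q hq
  obtain ⟨τ, h1, h2, h3⟩ := h
  have h4 : @Pseudocompact G τ := by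
    rcases h3 with h3 | ⟨p, hp, h3⟩
    · exact h3
    · exact @StronglyPseudocompact.pseudocompact G τ p hp h3
  obtain ⟨σ, hσ1, hσ2, hσ3, hσ4⟩ := @main_theorem2 Pool.Agent.H973R3.PD.pd2
    Pool.Agent.H833R3.PD.pd3 Pool.Agent.H833R3.PD.pd4 Pool.Agent.H833R3.PD.pd5
    Pool.Agent.H833R3.PD.pd6 q hq G _ τ h1 h2 h4
  refine ⟨σ, hσ1, hσ2, ?_, ?_⟩
  · intro U hU
    obtain ⟨u, x, hu, hx⟩ := hσ3 U (fun n => (hU n).1) (fun n => (hU n).2)
    exact ⟨u, hu, x, fun W hW => hx hW⟩
  · rintro ⟨u, x, hu, hx⟩
    exact hσ4 u x hu hx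

end Pool.Agent.Results.MP_dbf3d5_gt.NoConvergentSequences
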